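import Pool.Agent.T2h81.UC.C5

set_option autoImplicit false

/-! # Late classes in every short run of reduced residues

`r_j(n)` is the reduced residue number `j` after `n` modulo `d` (`j = 0, 1, ...`). A class is late
when all its primes exceed `λ φ(d) log d`. For every interval `(M, M + N]` of `[1, d]` with
`N ≥ d ^ η` and every `m` with `exp(exp(C λ/η)) ≤ m ≤ d ^ (η/2)`: for all but
`exp(-λ/η) (φ(d)/d) N` of the `n` of the interval prime to `d`, at least `exp(-exp(C λ/η)) m` of the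
next `m` reduced residues after `n` are late. -/

namespace Pool.Agent.Results.MP_458f0b_nt.LateClassesEverywhere

open Pool.Agent.T2h81.UC

theorem result : ∃ C : ℝ, 1 ≤ C ∧ ∀ η lam : ℝ, 0 < η → η ≤ 1 → 1 ≤ lam →
    ∃ d₀ : ℕ, ∀ d : ℕ, d₀ ≤ d → ∀ M N : ℕ, M + N ≤ d → (d : ℝ) ^ η ≤ N →
    ∀ m : ℕ, Real.exp (Real.exp (C * lam / η)) ≤ m → (m : ℝ) ≤ (d : ℝ) ^ (η / 2) →
      ({n : ℕ | M < n ∧ n ≤ M + N ∧ n.Coprime d ∧
          (({j : ℕ | j < m ∧ ∀ p : ℕ, p.Prime →
              p ≡ Nat.nth (fun a => n < a ∧ a.Coprime d) j [MOD d] →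
                lam * d.totient * Real.log d < p}.ncard : ℕ) : ℝ) <
            Real.exp (-Real.exp (C * lam / η)) * m}.ncard : ℝ) ≤
        Real.exp (-(lam / η)) * (((d.totient : ℝ) / d) * N) := by
  classical
  obtain ⟨C, hC, h⟩ := late_main
  refine ⟨C, hC, fun η lam hη hη1 hlam => ?_⟩
  obtain ⟨d₀, hd₀⟩ := h η lam hη hη1 hlam
  refine ⟨d₀, fun d hd M N hMN hN m hm1 hm2 => ?_⟩
  refine le_trans (le_of_eq ?_) (hd₀ d hd M N hMN hN m hm1 hm2)
  rw [Nat.cast_inj]
  have hin : ∀ n : ℕ, {j : ℕ | j < m ∧ ∀ p : ℕ, p.Prime →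
      p ≡ Nat.nth (fun a => n < a ∧ a.Coprime d) j [MOD d] →
        lam * d.totient * Real.log d < p}.ncard = ((Finset.range m).filter (fun j =>
      Late d (lam * d.totient * Real.log d) (rr d n j))).card := by
    intro n
    rw [← Set.ncard_coe_finset]
    congr 1
    ext j
    rw [Finset.coe_filter, Set.mem_ofPred_eq, Set.mem_ofPred_eq, Finset.mem_range]
    rfl
  rw [← Set.ncard_coe_finset]
  congr 1
  ext n
  rw [Finset.coe_filter, Set.mem_ofPred_eq, Set.mem_ofPred_eq, Finset.mem_Ioc, hin n]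
  tauto

end Pool.Agent.Results.MP_458f0b_nt.LateClassesEverywhere
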