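import Pool.Agent.T2h81.LD.M5

set_option autoImplicit false

/-!
# Late classes inside families of classes modulo a prime

A class `a` modulo the prime `P` is late at `y` if every prime in it is larger than `y`.

(0) General criterion. Let `r ≥ 1`, `0 < ε ≤ 1`. There are `C, κ, P₀ > 0` such that for all primes `P ≥ P₀` the following
holds for every finite family of vectors `v_i = (v_i1, …, v_ir)`, `i ∈ s`, modulo `P` whose Fourier coefficients at the
nonzero frequencies are at most `|s| P ^ (-ε)`. For all `1 ≤ lam ≤ (log log P) / C`, at least `|s| exp (-exp (C lam))` of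
the `i ∈ s` are such that all the `r` classes `v_ij` are late at `lam P log P`; and for at least `|s| P ^ (-ε)` of the
`i ∈ s` all these classes are late at the record size `κ P f(P)`, `f(x) = log x (log₂ x)² log₄ x / (log₃ x)²`.

(1) Products. Let `A, B` be ANY sets of residues modulo `P` with `|A| |B| ≥ P ^ (1 + ε)`, and let `G_j, K_j` be any
functions. The conclusion of (0) holds for the vectors with the entries `a b ^ j + G_j(a) + K_j(b)`, `1 ≤ j ≤ r`.

(2) Cosets. It holds for every coset of every subgroup of order at least `P ^ (3/8 + ε)` of the multiplicative group.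

(3) Products and their inverses. For `A, B` as in (1) it holds for the pairs of classes `a b + G_0(a) + K_0(b)` and
`(a b)⁻¹ + G_1(a) + K_1(b)`.

Only classes `a ≠ 0` are late at `lam P log P`, since the class `0` contains `P`. The number `P log P` is the expected
size of the least prime in a class.

Proof: completion over the least residues (library `N825.FC`), the hypergraph covering theorem `Y831.RC` with a profile
depending on `lam` for the progressions `v + k P`, `k ≤ lam log P` (here `T2h81.LD.ap_crit`), and the covering sieve of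
the starting files at the record scale (`ap_rec`). For (2) the bounds of Heath-Brown and Konyagin for sums over subgroups
and for (3) Weil's bound for Kloosterman sums are taken from the library.
-/

namespace Pool.Agent.Results.MP_458f0b_nt.LateClassesInFamilies

open Finset

/-- every prime in the class `a` modulo `P` is larger than `y` -/
def Late (P : ℕ) (y : ℝ) (a : ZMod P) : Prop := ∀ q : ℕ, q.Prime → (q : ZMod P) = a → y < q

/-- the record scale `f(x) = log x (log₂ x)² log₄ x / (log₃ x)²` (iterated natural logarithms) -/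
noncomputable def f (x : ℝ) : ℝ :=
  Real.log x * (Real.log (Real.log x)) ^ 2 * Real.log (Real.log (Real.log (Real.log x))) /
    (Real.log (Real.log (Real.log x))) ^ 2

/-- For all `1 ≤ lam ≤ (log log P) / C` all entries of at least `|s| exp (-exp (C lam))` of the vectors `v_i`, `i ∈ s`,
are late at `lam P log P`, and all entries of at least `|s| P ^ (-ε)` of them are late at `κ P f(P)`. -/
def ManyLate (C κ ε : ℝ) (P : ℕ) {ι : Type} {r : ℕ} (s : Finset ι) (v : ι → Fin r → ZMod P) : Prop :=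
  (∀ lam : ℝ, 1 ≤ lam → lam ≤ Real.log (Real.log P) / C →
    (s.card : ℝ) * Real.exp (-Real.exp (C * lam)) ≤
      (({i : ι | i ∈ s ∧ ∀ j, Late P (lam * P * Real.log P) (v i j)}.ncard : ℕ) : ℝ)) ∧
  (s.card : ℝ) * (P : ℝ) ^ (-ε) ≤
    (({i : ι | i ∈ s ∧ ∀ j, Late P (κ * P * f P) (v i j)}.ncard : ℕ) : ℝ)

lemma exp_le_log (C Z lam : ℝ) (hC : 0 < C) (hZ : 2 ≤ Z) (h : lam ≤ Real.log (Real.log Z) / C) :
    Real.exp (C * lam) ≤ Real.log Z := by
  have hlog : 0 < Real.log Z := Real.log_pos (by linarith)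
  rw [le_div_iff₀ hC] at h
  rw [← Real.exp_log hlog]
  apply Real.exp_le_exp.2
  linarith

lemma card_late {P : ℕ} {ι : Type} {r : ℕ} (s : Finset ι) (v : ι → Fin r → ZMod P) (y : ℝ)
    [DecidablePred fun i => ∀ j, Pool.Agent.T2h81.LD.LateC P y (v i j)] :
    ((s.filter (fun i => ∀ j, Pool.Agent.T2h81.LD.LateC P y (v i j))).card : ℝ) =
      (({i : ι | i ∈ s ∧ ∀ j, Late P y (v i j)}.ncard : ℕ) : ℝ) := by
  rw [← Set.ncard_coe_finset, Finset.coe_filter]
  rfl

/-- the criterion, with an exponent `c ≤ ε` -/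
theorem crit (r : ℕ) (hr : 1 ≤ r) (c ε : ℝ) (hc : 0 < c) (hcε : c ≤ ε) (hε1 : ε ≤ 1) :
    ∃ C κ : ℝ, 0 < C ∧ 0 < κ ∧ ∃ P₀ : ℝ, ∀ (P : ℕ) [Fact P.Prime], P₀ ≤ P →
    ∀ (ι : Type) (s : Finset ι) (v : ι → Fin r → ZMod P),
    (∀ h : Fin r → ZMod P, h ≠ 0 →
      ‖∑ i ∈ s, (ZMod.stdAddChar (∑ j, h j * v i j) : ℂ)‖ ≤ s.card * (P : ℝ) ^ (-c)) →
    ManyLate C κ ε P s v := by
  classical
  obtain ⟨C, κ, hC, hκ, P₀, h⟩ := Pool.Agent.T2h81.LD.fam r hr c hc (hcε.trans hε1)
  refine ⟨C, κ, by linarith, hκ, P₀, ?_⟩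
  intro P hPF hP ι s v hv
  have hPp : P.Prime := Fact.out
  have hP2 : (2 : ℝ) ≤ P := by exact_mod_cast hPp.two_le
  obtain ⟨h1, h2⟩ := h P hP ι s v hv
  constructor
  · intro lam hlam hlamP
    refine (h1 lam hlam (exp_le_log C P lam (by linarith) hP2 hlamP)).trans (le_of_eq ?_)
    exact card_late s v _
  · refine le_trans ?_ (h2.trans (le_of_eq ?_))
    · apply mul_le_mul_of_nonneg_left _ (Nat.cast_nonneg _)
      apply Real.rpow_le_rpow_of_exponent_le (by linarith)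
      linarith
    · exact card_late s v _

/-- **Late classes inside families of classes modulo a prime.** -/
theorem result (ε : ℝ) (hε : 0 < ε) (hε1 : ε ≤ 1) :
    (∀ r : ℕ, 1 ≤ r → ∃ C κ : ℝ, 0 < C ∧ 0 < κ ∧ ∃ P₀ : ℝ, ∀ (P : ℕ) [Fact P.Prime], P₀ ≤ P →
      ∀ (ι : Type) (s : Finset ι) (v : ι → Fin r → ZMod P),
        (∀ h : Fin r → ZMod P, h ≠ 0 →
          ‖∑ i ∈ s, (ZMod.stdAddChar (∑ j, h j * v i j) : ℂ)‖ ≤ s.card * (P : ℝ) ^ (-ε)) →
        ManyLate C κ ε P s v) ∧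
    (∀ r : ℕ, 1 ≤ r → ∃ C κ : ℝ, 0 < C ∧ 0 < κ ∧ ∃ P₀ : ℝ, ∀ (P : ℕ) [Fact P.Prime], P₀ ≤ P →
      ∀ A B : Finset (ZMod P), (P : ℝ) ^ (1 + ε) ≤ A.card * B.card →
        ∀ G K : Fin r → ZMod P → ZMod P, ManyLate C κ ε P (A ×ˢ B)
          (fun w j => w.1 * w.2 ^ ((j : ℕ) + 1) + G j w.1 + K j w.2)) ∧
    (∃ C κ : ℝ, 0 < C ∧ 0 < κ ∧ ∃ P₀ : ℝ, ∀ (P : ℕ) [Fact P.Prime], P₀ ≤ P →
      ∀ (H : Subgroup (ZMod P)ˣ) (s : Finset (ZMod P)ˣ), (∀ h, h ∈ s ↔ h ∈ H) →
        (P : ℝ) ^ (3 / 8 + ε) ≤ s.card → ∀ x : ZMod P, x ≠ 0 →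
        ManyLate C κ ε P s (fun h (_ : Fin 1) => x * (h : ZMod P))) ∧
    (∃ C κ : ℝ, 0 < C ∧ 0 < κ ∧ ∃ P₀ : ℝ, ∀ (P : ℕ) [Fact P.Prime], P₀ ≤ P →
      ∀ A B : Finset (ZMod P), (P : ℝ) ^ (1 + ε) ≤ A.card * B.card →
        ∀ G K : Fin 2 → ZMod P → ZMod P, ManyLate C κ ε P (A ×ˢ B)
          (fun w j => (if j = 0 then w.1 * w.2 else (w.1 * w.2)⁻¹) + G j w.1 + K j w.2)) := by
  refine ⟨fun r hr => crit r hr ε ε hε le_rfl hε1, fun r hr => ?_, ?_, ?_⟩
  · obtain ⟨C, κ, hC, hκ, P₁, h1⟩ := crit r hr (ε / 4) ε (by linarith) (by linarith) hε1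
    obtain ⟨P₂, h2⟩ := Pool.Agent.T2h81.LD.bias_products r hr ε hε hε1
    refine ⟨C, κ, hC, hκ, max P₁ P₂, fun P _ hP A B hAB G K => ?_⟩
    exact h1 P ((le_max_left _ _).trans hP) _ _ _
      (h2 P ((le_max_right _ _).trans hP) A B hAB G K)
  · obtain ⟨C, κ, hC, hκ, P₁, h1⟩ := crit 1 le_rfl (ε / 4) ε (by linarith) (by linarith) hε1
    obtain ⟨P₂, h2⟩ := Pool.Agent.T2h81.LD.bias_cosets ε hε hε1
    refine ⟨C, κ, hC, hκ, max P₁ P₂, fun P _ hP H s hs hcard x hx => ?_⟩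
    exact h1 P ((le_max_left _ _).trans hP) _ _ _
      (h2 P ((le_max_right _ _).trans hP) H s hs hcard x hx)
  · obtain ⟨C, κ, hC, hκ, P₁, h1⟩ := crit 2 (by norm_num) (ε / 8) ε (by linarith) (by linarith) hε1
    obtain ⟨P₂, h2⟩ := Pool.Agent.T2h81.LD.bias_inverses ε hε hε1
    refine ⟨C, κ, hC, hκ, max P₁ P₂, fun P _ hP A B hAB G K => ?_⟩
    exact h1 P ((le_max_left _ _).trans hP) _ _ _
      (h2 P ((le_max_right _ _).trans hP) A B hAB G K)

end Pool.Agent.Results.MP_458f0b_nt.LateClassesInFamilies
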