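import Pool.Agent.T2h81.UC.F6

set_option autoImplicit false

/-! # Fixed residues: least primes of record size for many moduli

Let `f(X) = log X (log₂ X)² log₄ X / (log₃ X)²`. For every `A ≥ 1` and `0 < η ≤ 1` there is `c > 0` such that for all
large `X` every interval `(M, M + N]` with `N ≥ X ^ η` contains at least `N X ^ (-η)` moduli `d` for which all the
classes `a` with `0 < |a| ≤ A` are reduced and contain no prime `p ≠ a` up to `c φ(d) f(X)`.

For a fixed class `a` and infinitely many `d`, lower bounds for the least prime `p(d, a)` are due to Prachar, Schinzel,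
Wagstaff, Granville and Pomerance; they have the order `φ(d) log d log₂ d log₄ d / (log₃ d)²`. The bound here is larger
by the factor `log₂ d`, holds for all small classes at once, and the moduli occur in all intervals of length `X ^ η`.

Method. The modulus `d` is `-1` modulo the medium primes, so that `k d + a` is divisible by `p` if `k ≡ a (mod p)`: one
choice serves all the classes `a`. It is `0` modulo the primes in `(A, log₂ X]`; the loss in the sieve is the gain in
`φ(d)`. The remaining small primes are chosen greedily, with weights for the `k` which they divide. So only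
`c log X` of the `k d + a` are left, and these are covered by primes between `(log X)^6` and a small power of `X`, by a
variance argument over many shifts of `d` (`UC.E1`, `UC.E2`; the covering engine is `Y831.RC5` of the starting files). -/

namespace Pool.Agent.Results.MP_458f0b_nt.RecordFixedResidues

open Pool.Agent.T2h81.UC

/-- `f(X) = log X (log₂ X)² log₄ X / (log₃ X)²` -/
noncomputable def f (X : ℝ) : ℝ :=
  Real.log X * (Real.log (Real.log X)) ^ 2 * Real.log (Real.log (Real.log (Real.log X))) /
    (Real.log (Real.log (Real.log X))) ^ 2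

theorem result (A : ℕ) (hA : 1 ≤ A) (η : ℝ) (hη : 0 < η) (hη1 : η ≤ 1) :
    ∃ c X₀ : ℝ, 0 < c ∧ ∀ X : ℝ, X₀ ≤ X → ∀ M N : ℕ, X ^ η ≤ N →
      (N : ℝ) * X ^ (-η) ≤ ({d : ℕ | M < d ∧ d ≤ M + N ∧ ∀ a : ℤ, a ≠ 0 → |a| ≤ A →
        IsCoprime a (d : ℤ) ∧ ∀ p : ℕ, p.Prime → (p : ℤ) ≠ a → (p : ℤ) ≡ a [ZMOD (d : ℤ)] →
          c * d.totient * f X < p}.ncard : ℝ) := by
  classical
  obtain ⟨c, X₀, hc, hX₀, h⟩ := rec_main A hA η hη hη1
  refine ⟨c, X₀, hc, fun X hX M N hN => ?_⟩
  refine (h X hX M N hN).trans (le_of_eq ?_)
  rw [Nat.cast_inj, ← Set.ncard_coe_finset]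
  congr 1
  ext d
  rw [Finset.coe_filter, Set.mem_ofPred_eq, Set.mem_ofPred_eq, Finset.mem_Ioc, and_assoc]
  rfl

end Pool.Agent.Results.MP_458f0b_nt.RecordFixedResidues
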