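import Pool.Agent.T2h81.UC.E4

set_option autoImplicit false

/-! # Fixed small residues: many moduli in almost every short run, uniformly up to `log log d` times the average

There are `C` and, for `0 < η ≤ 1`, `X₀` such that for all `X ≥ X₀`, all `λ ≥ 1`, all `A ≥ 1`, `H ≥ 0`, every interval
`(M, M + N]` of `[0, X]` with `N ≥ X ^ η` and every `m` with `exp(exp(C A (H + 1) λ / η)) ≤ m ≤ X ^ (η / 2)`: for all
but `exp(-λ / η) N` of the `n` of the interval at least `exp(-exp(C A (H + 1) λ / η)) m` of the next `m` integers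
`d > n` have the property that for all `D = d, d + 1, ..., d + H` and all integers `a` with `0 < |a| ≤ A` no prime
`p ≠ a` up to `λ φ(D) log D` is `≡ a (mod D)`.

Nothing is fixed except `η`. With `λ A (H + 1) = c η log log m` one gets, for `m₀ ≤ m ≤ X ^ (η / 2)`, almost all runs
of `m` moduli near `X` contain a modulus `d` with `p(d, 1)` and `p(d, -1)` larger than `c φ(d) log d log log m`. For
`m` a power of `X` this is `c φ(d) log d log log d`, more than the lower bounds of Prachar, Schinzel, Granville and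
Pomerance for the least prime in a fixed class. -/

namespace Pool.Agent.Results.MP_458f0b_nt.SmallResiduesUniform

open Pool.Agent.T2h81.UC

theorem result : ∃ C : ℝ, 1 ≤ C ∧ ∀ η : ℝ, 0 < η → η ≤ 1 → ∃ X₀ : ℝ, ∀ X : ℝ, X₀ ≤ X →
    ∀ lam : ℝ, 1 ≤ lam → ∀ A H : ℕ, 1 ≤ A → ∀ M N : ℕ, (M : ℝ) + N ≤ X → X ^ η ≤ N →
    ∀ m : ℕ, Real.exp (Real.exp (C * A * (H + 1) * lam / η)) ≤ m → (m : ℝ) ≤ X ^ (η / 2) →
      ({n : ℕ | M < n ∧ n ≤ M + N ∧
          (({d : ℕ | n < d ∧ d ≤ n + m ∧ ∀ h : ℕ, h ≤ H → ∀ a : ℤ, a ≠ 0 → |a| ≤ A →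
              ∀ p : ℕ, p.Prime → (p : ℤ) ≠ a → (p : ℤ) ≡ a [ZMOD ((d + h : ℕ) : ℤ)] →
                lam * (d + h).totient * Real.log ((d + h : ℕ) : ℝ) < p}.ncard : ℕ) : ℝ) <
            Real.exp (-Real.exp (C * A * (H + 1) * lam / η)) * m}.ncard : ℝ) ≤
        Real.exp (-(lam / η)) * N := by
  classical
  obtain ⟨C, hC, h⟩ := moduli_uni
  refine ⟨C, hC, fun η hη hη1 => ?_⟩
  obtain ⟨X₀, hX₀⟩ := h η hη hη1
  refine ⟨X₀, fun X hX lam hlam A H hA M N hMN hN m hm1 hm2 => ?_⟩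
  refine le_trans (le_of_eq ?_) (hX₀ X hX lam hlam A H hA M N hMN hN m hm1 hm2)
  rw [Nat.cast_inj]
  have hin : ∀ n : ℕ, {d : ℕ | n < d ∧ d ≤ n + m ∧ ∀ h : ℕ, h ≤ H → ∀ a : ℤ, a ≠ 0 → |a| ≤ A →
      ∀ p : ℕ, p.Prime → (p : ℤ) ≠ a → (p : ℤ) ≡ a [ZMOD ((d + h : ℕ) : ℤ)] →
        lam * (d + h).totient * Real.log ((d + h : ℕ) : ℝ) < p}.ncard =
      ((Finset.Ioc n (n + m)).filter (fun d => ∀ h ≤ H, LateA A lam (d + h))).card := by
    intro n
    rw [← Set.ncard_coe_finset]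
    congr 1
    ext d
    rw [Finset.coe_filter, Set.mem_ofPred_eq, Set.mem_ofPred_eq, Finset.mem_Ioc, and_assoc]
    rfl
  rw [← Set.ncard_coe_finset]
  congr 1
  ext n
  rw [Finset.coe_filter, Set.mem_ofPred_eq, Set.mem_ofPred_eq, Finset.mem_Ioc, hin n, and_assoc]

end Pool.Agent.Results.MP_458f0b_nt.SmallResiduesUniform
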